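import Pool.Agent.Q100.MB

/-!
# The converse of the shrinking / boundedly complete duality for M-bases holds

The definitions are in `Pool/Agent/Q100/MBDefs.lean`.
-/

set_option autoImplicit false

namespace Pool.Agent.Results.MP_11f428_an.ShrinkingConverse

open Q100.MB

universe u v

/-- The negated form of Q1: for every M-basis `x` of every Banach space, with associated
functionals `f`, if `f` is a boundedly complete M-basis of `[f_n]` (with associated functionals
`u (x n)`), then `[f_n] = E*`, that is `x` is shrinking. -/
theorem result : ∀ (𝕜 : Type v) [RCLike 𝕜] (E : Type u) [NormedAddCommGroup E] [NormedSpace 𝕜 E]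
    [CompleteSpace E] (x : ℕ → E) (f : ℕ → E →L[𝕜] 𝕜), IsMBasis x f →
    BoundedlyComplete (E := FSpan f) (fun n => canon f (x n)) → Shrinking f := by
  intro 𝕜 _ E _ _ _ x f h hb
  exact shrinking_of_boundedlyComplete h hb

end Pool.Agent.Results.MP_11f428_an.ShrinkingConverse
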